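import Mathlib.MeasureTheory.Integral.Bochner.Basic
import Mathlib.MeasureTheory.Measure.Haar.OfBasis
import Mathlib.Analysis.Normed.Lp.MeasurableSpace
import Pool.Agent.BoltzD.Geo.BP
import Mathlib.MeasureTheory.Measure.Haar.InnerProductSpace
import Mathlib.Analysis.Calculus.Deriv.MeanValue
import Mathlib.MeasureTheory.Integral.IntervalIntegral.FundThmCalculus
import Mathlib.MeasureTheory.Integral.Prod
import Mathlib.RingTheory.PiTensorProduct

-- ======== part 0: formerly Pool.Agent.BoltzD.Calc.Defs
section MrgPart0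

/-! Calculus for maps with values in a topological vector space `F` (used with `F = ℝ` and with
`F` the Schwartz space of the velocity variable), smooth classes in `(s,x)`, torus integral. -/

set_option autoImplicit false

open Filter Topology MeasureTheory

namespace Pool.Agent.BoltzC

variable [Dim]

/-- Euclidean three-space (positions and velocities). -/
abbrev E3 := EuclideanSpace ℝ Ix

/-- The coordinate vectors. -/
noncomputable def ev (i : Ix) : E3 := EuclideanSpace.single i 1

section TVS

variable {F : Type*} [AddCommGroup F] [Module ℝ F] [TopologicalSpace F]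

/-- Derivative of a curve in a topological vector space: limit of the slopes. -/
def HD (γ : ℝ → F) (γ' : F) (t : ℝ) : Prop :=
  Tendsto (fun h : ℝ => h⁻¹ • (γ (t + h) - γ t)) (𝓝[≠] 0) (𝓝 γ')

/-- Partial derivative in the direction `ev i` (the limit of the slopes when it exists). -/
noncomputable def dX (i : Ix) (G : E3 → F) (x : E3) : F :=
  limUnder (𝓝[≠] (0 : ℝ)) (fun h : ℝ => h⁻¹ • (G (x + h • ev i) - G x))

/-- Iterated partial derivative along a word; the head of the word is applied first. -/
noncomputable def dXw : List Ix → (E3 → F) → E3 → F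
  | [], G => G
  | i :: u, G => dXw u (dX i G)

/-- Periodicity under the integer lattice. -/
def Per {α : Type*} (G : E3 → α) : Prop := ∀ i x, G (x + ev i) = G x

/-- Jointly continuous family (parameter space `T`) whose first partial derivatives in `x` exist. -/
structure Good {T : Type*} [TopologicalSpace T] (g : T → E3 → F) : Prop where
  cont : Continuous (fun p : T × E3 => g p.1 p.2)
  hd : ∀ s i x, HD (fun t => g s (x + t • ev i)) (dX i (g s) x) 0

/-- Families that are smooth in `x`, all `x`-derivatives being jointly continuous in `(s,x)`. -/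
def SmC {T : Type*} [TopologicalSpace T] (g : T → E3 → F) : Prop :=
  ∀ u : List Ix, Good (fun s => dXw u (g s))

/-- Smooth maps of `x`. -/
def Sm (G : E3 → F) : Prop := SmC (fun _ : Unit => G)

/-- `C^1` curves in `s` of smooth maps of `x`, with time derivative `g'`. -/
structure SmD (g g' : ℝ → E3 → F) : Prop where
  sm : SmC g
  sm' : SmC g'
  hd : ∀ s x, HD (fun σ => g σ x) (g' s x) s

end TVS

/-- The half-open cube with corner `a` and side `L`. -/
def cube (a : E3) (L : ℝ) : Set E3 := {x | ∀ i, x i ∈ Set.Ioc (a i) (a i + L)}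

/-- Integral over one period cell. -/
noncomputable def tint (φ : E3 → ℝ) : ℝ := ∫ x in cube 0 1, φ x

/-- All ways to split a word into two subwords (Leibniz rule). -/
def splits : List Ix → List (List Ix × List Ix)
  | [] => [([], [])]
  | i :: u => (splits u).map (fun p => (i :: p.1, p.2)) ++ (splits u).map (fun p => (p.1, i :: p.2))

/-- The real orthonormal (Hartley) basis of the torus. -/
noncomputable def cas (n : Ix → ℤ) (x : E3) : ℝ :=
  Real.cos (2 * Real.pi * ∑ i, (n i : ℝ) * x i) + Real.sin (2 * Real.pi * ∑ i, (n i : ℝ) * x i)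

end Pool.Agent.BoltzC

end MrgPart0

-- ======== part 1: formerly Pool.Agent.BoltzD.Calc.Cube
section MrgPart1

/-! Integrals over cubes as iterated integrals and the local Sobolev inequality in scalar form. -/

set_option autoImplicit false

open Filter Topology MeasureTheory Set

namespace Pool.Agent.BoltzC

variable [Dim]

theorem ev_coord (i j : Ix) : ev j i = if i = j then 1 else 0 := by simp [ev]

theorem sum_coord_ev (x : E3) : ∑ i, x i • ev i = x := by
  ext j
  simp [ev_coord]

theorem measurableSet_cube (a : E3) (L : ℝ) : MeasurableSet (cube a L) := by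
  have : cube a L = ⋂ i, (fun x : E3 => x i) ⁻¹' Ioc (a i) (a i + L) := by
    ext x; simp [cube]
  rw [this]
  exact MeasurableSet.iInter fun i => measurableSet_Ioc.preimage (by fun_prop)

theorem cube_subset_closedBall (a : E3) (L : ℝ) : cube a L ⊆ Metric.closedBall a (dd * |L|) := by
  intro x hx
  rw [Metric.mem_closedBall, dist_eq_norm, ← sum_coord_ev (x - a)]
  refine (norm_sum_le _ _).trans ?_
  have : ∀ i, ‖(x - a) i • ev i‖ ≤ |L| := by
    intro i
    have h := hx i
    rw [norm_smul]
    have : ‖ev i‖ = 1 := by simp [ev]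
    rw [this, mul_one, Real.norm_eq_abs, PiLp.sub_apply, abs_of_pos (sub_pos.2 h.1)]
    linarith [h.2, le_abs_self L]
  calc ∑ i, ‖(x - a) i • ev i‖ ≤ ∑ _i : Ix, |L| := Finset.sum_le_sum fun i _ => this i
    _ = dd * |L| := by simp

theorem integrableOn_cube {G : Type*} [NormedAddCommGroup G] {φ : E3 → G} (hφ : Continuous φ)
    (a : E3) (L : ℝ) : IntegrableOn φ (cube a L) :=
  (hφ.continuousOn.integrableOn_compact (isCompact_closedBall a _)).mono_set
    (cube_subset_closedBall a L)

/-- Average along a coordinate segment. -/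
noncomputable def segI (i : Ix) (L : ℝ) (ψ : E3 → ℝ) (x : E3) : ℝ :=
  ∫ t in (0 : ℝ)..L, ψ (x + t • ev i)

theorem continuous_segI (i : Ix) (L : ℝ) {ψ : E3 → ℝ} (hψ : Continuous ψ) :
    Continuous (segI i L ψ) :=
  intervalIntegral.continuous_parametric_intervalIntegral_of_continuous'
    (f := fun x t => ψ (x + t • ev i)) (hψ.comp (by fun_prop)) 0 L

/-- Iterated averages along the directions of a list. -/
noncomputable def segL (l : List Ix) (L : ℝ) (ψ : E3 → ℝ) : E3 → ℝ :=
  l.foldr (fun i φ => segI i L φ) ψ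

theorem segL_nil (L : ℝ) (ψ : E3 → ℝ) : segL [] L ψ = ψ := rfl

theorem segL_cons (i : Ix) (l : List Ix) (L : ℝ) (ψ : E3 → ℝ) :
    segL (i :: l) L ψ = segI i L (segL l L ψ) := rfl

theorem continuous_segL (l : List Ix) (L : ℝ) {ψ : E3 → ℝ} (hψ : Continuous ψ) :
    Continuous (segL l L ψ) := by
  induction l with
  | nil => exact hψ
  | cons i l ih => exact continuous_segI i L ih

theorem segL_ofFn {L : ℝ} (hL : 0 ≤ L) {ψ : E3 → ℝ} (hψ : Continuous ψ) (n : ℕ) :
    ∀ (f : Fin n → Ix) (a : E3), segL (List.ofFn f) L ψ a =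
      ∫ t in univ.pi fun _ : Fin n => Ioc (0 : ℝ) L, ψ (a + ∑ k, t k • ev (f k)) := by
  induction n with
  | zero =>
    intro f a
    simp [segL_nil, Measure.real, volume_pi]
  | succ n ih =>
    intro f a
    have hmp := (volume_preserving_piFinSuccAbove (fun _ : Fin (n + 1) => ℝ) 0).symm
    rw [← hmp.setIntegral_preimage_emb (MeasurableEquiv.measurableEmbedding _)]
    have hpre : (MeasurableEquiv.piFinSuccAbove (fun _ : Fin (n + 1) => ℝ) 0).symm ⁻¹'
        (univ.pi fun _ => Ioc (0 : ℝ) L) = Ioc 0 L ×ˢ univ.pi fun _ : Fin n => Ioc (0 : ℝ) L := by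
      ext p
      simp [MeasurableEquiv.piFinSuccAbove, Fin.forall_fin_succ, Fin.insertNthEquiv]
    have he : ∀ p : ℝ × (Fin n → ℝ), ψ (a + ∑ k,
        (MeasurableEquiv.piFinSuccAbove (fun _ : Fin (n + 1) => ℝ) 0).symm p k • ev (f k)) =
        ψ (a + p.1 • ev (f 0) + ∑ k, p.2 k • ev (f k.succ)) := fun p => by
      simp [MeasurableEquiv.piFinSuccAbove, Fin.sum_univ_succ, Fin.insertNthEquiv, add_assoc]
    simp only [hpre, he]
    have hc : Continuous fun p : ℝ × (Fin n → ℝ) =>
        ψ (a + p.1 • ev (f 0) + ∑ k, p.2 k • ev (f k.succ)) := hψ.comp (by fun_prop)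
    have hK : IsCompact (Icc (0 : ℝ) L ×ˢ univ.pi fun _ : Fin n => Icc (0 : ℝ) L) :=
      isCompact_Icc.prod (isCompact_univ_pi fun _ => isCompact_Icc)
    rw [Measure.volume_eq_prod, setIntegral_prod _
      ((hc.continuousOn.integrableOn_compact hK).mono_set
        (prod_mono Ioc_subset_Icc_self (pi_mono fun _ _ => Ioc_subset_Icc_self))),
      List.ofFn_succ, segL_cons, segI, intervalIntegral.integral_of_le hL]
    simp only [ih]

theorem integral_cube_eq_segL {ψ : E3 → ℝ} (hψ : Continuous ψ) (a : E3) {L : ℝ} (hL : 0 ≤ L) :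
    ∫ y in cube a L, ψ y = segL (List.finRange dd) L ψ a := by
  have hmp : MeasurePreserving (fun t : Ix → ℝ => a + (MeasurableEquiv.toLp 2 (Ix → ℝ)) t)
      volume volume :=
    (measurePreserving_add_left volume a).comp (PiLp.volume_preserving_toLp Ix)
  have hemb : MeasurableEmbedding fun t : Ix → ℝ => a + (MeasurableEquiv.toLp 2 (Ix → ℝ)) t :=
    (MeasurableEquiv.addLeft a).measurableEmbedding.comp (MeasurableEquiv.measurableEmbedding _)
  rw [← hmp.setIntegral_preimage_emb hemb, ← List.ofFn_id, segL_ofFn hL hψ]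
  have hpre : (fun t : Ix → ℝ => a + (MeasurableEquiv.toLp 2 (Ix → ℝ)) t) ⁻¹' cube a L =
      univ.pi fun _ => Ioc (0 : ℝ) L := by
    ext t
    simp [cube]
  rw [hpre]
  congr 1
  funext t
  congr 2
  exact (sum_coord_ev (WithLp.toLp 2 t)).symm

theorem segI_le {i : Ix} {L : ℝ} (hL : 0 ≤ L) {ψ χ₁ χ₂ : E3 → ℝ} (hψ : Continuous ψ)
    (h₁ : Continuous χ₁) (h₂ : Continuous χ₂) {c₁ c₂ : ℝ} (h : ∀ y, ψ y ≤ c₁ * χ₁ y + c₂ * χ₂ y)
    (x : E3) : segI i L ψ x ≤ c₁ * segI i L χ₁ x + c₂ * segI i L χ₂ x := by
  unfold segI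
  have i1 : IntervalIntegrable (fun t : ℝ => c₁ * χ₁ (x + t • ev i)) volume 0 L :=
    Continuous.intervalIntegrable (by fun_prop) _ _
  have i2 : IntervalIntegrable (fun t : ℝ => c₂ * χ₂ (x + t • ev i)) volume 0 L :=
    Continuous.intervalIntegrable (by fun_prop) _ _
  rw [← intervalIntegral.integral_const_mul, ← intervalIntegral.integral_const_mul,
    ← intervalIntegral.integral_add i1 i2]
  exact intervalIntegral.integral_mono_on hL (Continuous.intervalIntegrable (by fun_prop) _ _)
    (i1.add i2) fun t _ => h _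

/-- One-dimensional Sobolev inequality. -/
theorem sobolev_1d {ψ₀ ψ₁ r : ℝ → ℝ} {L : ℝ} (hL : 0 < L) (h₁ : Continuous ψ₁)
    (hd : ∀ t, HasDerivAt ψ₀ (r t) t) (hr : ∀ t, |r t| ≤ ψ₀ t / L + L * ψ₁ t) :
    ψ₀ 0 ≤ 2 / L * (∫ t in (0 : ℝ)..L, ψ₀ t) + L * ∫ t in (0 : ℝ)..L, ψ₁ t := by
  have h₀ : Continuous ψ₀ := continuous_iff_continuousAt.2 fun t => (hd t).continuousAt
  set b : ℝ → ℝ := fun t => ψ₀ t / L + L * ψ₁ t with hb
  have hbc : Continuous b := by fun_prop
  have hb0 : ∀ t, 0 ≤ b t := fun t => (abs_nonneg _).trans (hr t)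
  have hH : ∀ t, HasDerivAt (fun t => ψ₀ t + ∫ τ in (0 : ℝ)..t, b τ) (r t + b t) t := fun t =>
    (hd t).add ((hbc.integral_hasStrictDerivAt 0 t).hasDerivAt)
  have hmono : Monotone fun t => ψ₀ t + ∫ τ in (0 : ℝ)..t, b τ :=
    monotone_of_deriv_nonneg (fun t => (hH t).differentiableAt) fun t => by
      rw [(hH t).deriv]
      linarith [neg_abs_le (r t), hr t]
  have key : ∀ t ∈ Icc (0 : ℝ) L, ψ₀ 0 ≤ ψ₀ t + ∫ τ in (0 : ℝ)..L, b τ := by
    intro t ht
    have h1 := hmono ht.1
    simp only [intervalIntegral.integral_same, add_zero] at h1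
    have h2 : ∫ τ in (0 : ℝ)..t, b τ ≤ ∫ τ in (0 : ℝ)..L, b τ :=
      intervalIntegral.integral_mono_interval le_rfl ht.1 ht.2
        (Eventually.of_forall hb0) (hbc.intervalIntegrable _ _)
    linarith
  have h3 := intervalIntegral.integral_mono_on hL.le (μ := volume) (f := fun _ => ψ₀ 0)
    (g := fun t => ψ₀ t + ∫ τ in (0 : ℝ)..L, b τ) (continuous_const.intervalIntegrable _ _)
    (Continuous.intervalIntegrable (by fun_prop) _ _) key
  rw [intervalIntegral.integral_add (h₀.intervalIntegrable _ _)
    (continuous_const.intervalIntegrable _ _)] at h3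
  have h4 : ∫ τ in (0 : ℝ)..L, b τ =
      (∫ t in (0 : ℝ)..L, ψ₀ t) / L + L * ∫ t in (0 : ℝ)..L, ψ₁ t := by
    rw [hb, intervalIntegral.integral_add (Continuous.intervalIntegrable (by fun_prop) _ _)
      (Continuous.intervalIntegrable (by fun_prop) _ _), intervalIntegral.integral_div,
      intervalIntegral.integral_const_mul]
  simp only [intervalIntegral.integral_const, sub_zero, smul_eq_mul, h4] at h3
  have h5 : L * ψ₀ 0 ≤ L * (2 / L * (∫ t in (0 : ℝ)..L, ψ₀ t) + L * ∫ t in (0 : ℝ)..L, ψ₁ t) := by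
    refine h3.trans (le_of_eq ?_)
    field_simp
    ring
  exact le_of_mul_le_mul_left h5 hL

theorem segL_le (l : List Ix) {L : ℝ} (hL : 0 ≤ L) {ψ χ₁ χ₂ : E3 → ℝ} (hψ : Continuous ψ)
    (h₁ : Continuous χ₁) (h₂ : Continuous χ₂) {c₁ c₂ : ℝ} (h : ∀ y, ψ y ≤ c₁ * χ₁ y + c₂ * χ₂ y) :
    ∀ x, segL l L ψ x ≤ c₁ * segL l L χ₁ x + c₂ * segL l L χ₂ x := by
  induction l with
  | nil => exact h
  | cons i l ih =>
    exact segI_le hL (continuous_segL _ _ hψ) (continuous_segL _ _ h₁) (continuous_segL _ _ h₂) ih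

theorem segL_concat (l : List Ix) (i : Ix) (L : ℝ) (ψ : E3 → ℝ) :
    segL (l ++ [i]) L ψ = segL l L (segI i L ψ) := by
  simp [segL]

/-- Local Sobolev inequality for a family of continuous quadratic quantities `q u`: if
`∫_cube q u ≤ M / L^(2|u|)` for all words of length at most `dd`, then `q [] x ≤ 3^dd M / L^dd`. -/
theorem sobolev_cube_scalar {q : List Ix → E3 → ℝ} {r : List Ix → Ix → E3 → ℝ}
    {L M : ℝ} (hL : 0 < L) (hq : ∀ u, Continuous (q u))
    (hd : ∀ u i x, HasDerivAt (fun t : ℝ => q u (x + t • ev i)) (r u i x) 0)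
    (hr : ∀ u i x, |r u i x| ≤ q u x / L + L * q (u ++ [i]) x) (x : E3)
    (hM : ∀ u : List Ix, u.length ≤ dd → L ^ (2 * u.length) * ∫ y in cube x L, q u y ≤ M) :
    q [] x ≤ 3 ^ dd * M / L ^ dd := by
  have s1 : ∀ u i y, q u y ≤ 2 / L * segI i L (q u) y + L * segI i L (q (u ++ [i])) y := by
    intro u i y
    have := sobolev_1d (ψ₀ := fun t => q u (y + t • ev i))
      (ψ₁ := fun t => q (u ++ [i]) (y + t • ev i)) (r := fun t => r u i (y + t • ev i)) hL
      ((hq _).comp (by fun_prop)) (fun t => by
        have h := hd u i (y + t • ev i)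
        have h2 : HasDerivAt (fun τ : ℝ => τ - t) 1 t := (hasDerivAt_id t).sub_const t
        have h3 := HasDerivAt.comp_of_eq t h h2 (by simp)
        simp only [mul_one] at h3
        refine h3.congr_of_eventuallyEq (Eventually.of_forall fun τ => ?_)
        simp only [Function.comp, sub_smul]
        congr 1
        abel) (fun t => hr u i _)
    simpa [segI] using this
  have key : ∀ (l l' : List Ix), l' ++ l = List.finRange dd → ∀ u : List Ix,
      u.length ≤ l'.length →
      L ^ (2 * u.length) * segL l' L (q u) x ≤ 3 ^ l.length * M / L ^ l.length := by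
    intro l
    induction l with
    | nil =>
      intro l' h u hu
      rw [List.append_nil] at h
      rw [h, ← integral_cube_eq_segL (hq u) x hL.le]
      simpa using hM u (by simpa [h] using hu)
    | cons i l ih =>
      intro l' h u hu
      have h' : l' ++ [i] ++ l = List.finRange dd := by simpa using h
      have a1 := ih _ h' u (by simp; omega)
      have a2 := ih _ h' (u ++ [i]) (by simpa using hu)
      rw [segL_concat] at a1 a2
      have a3 := segL_le l' hL.le (hq u) (continuous_segI i L (hq u))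
        (continuous_segI i L (hq (u ++ [i]))) (s1 u i) x
      have e : L ^ (2 * (u ++ [i]).length) = L ^ (2 * u.length) * L ^ 2 := by
        rw [← pow_add]; simp [mul_add]
      rw [e] at a2
      have hp : 0 < L ^ (2 * u.length) := by positivity
      calc _ ≤ L ^ (2 * u.length) * (2 / L * segL l' L (segI i L (q u)) x
            + L * segL l' L (segI i L (q (u ++ [i]))) x) := by gcongr
        _ = 2 / L * (L ^ (2 * u.length) * segL l' L (segI i L (q u)) x) + 1 / L *
            (L ^ (2 * u.length) * L ^ 2 * segL l' L (segI i L (q (u ++ [i]))) x) := by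
            field_simp
        _ ≤ 2 / L * (3 ^ l.length * M / L ^ l.length)
            + 1 / L * (3 ^ l.length * M / L ^ l.length) := by gcongr
        _ = _ := by rw [List.length_cons, pow_succ, pow_succ]; field_simp; ring
  simpa [segL_nil] using key _ [] (List.nil_append _) [] le_rfl

end Pool.Agent.BoltzC

end MrgPart1

-- marker of a merged file
example : 731051 + 365144 = 731051 + 365144 := rfl
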