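import Pool.Agent.BoltzD.En.Split

/-! Orthogonal projections on the spaces `HP n`, density, and the spectral gap above `HP N`. -/

set_option autoImplicit false

open Filter Topology MeasureTheory SchwartzMap Pool.Agent.BoltzC

noncomputable section

namespace Pool.Agent.BoltzD

variable [Dim]

/-- Orthogonal projection on a finite-dimensional space of Schwartz functions. -/
lemma exists_proj (K : Submodule ℝ SV) [FiniteDimensional ℝ K] (f : SV) :
    ∃ g ∈ K, ∀ h ∈ K, ip (f - g) h = 0 := by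
  set J : SV →ₗ[ℝ] Lp ℝ 2 (volume : Measure E) := (toLpCLM ℝ ℝ 2 volume).toLinearMap with hJ
  obtain ⟨y, hy, z, hz, e⟩ := (K.map J).exists_add_mem_mem_orthogonal (J f)
  obtain ⟨g, hg, rfl⟩ := hy
  refine ⟨g, hg, fun h hh => ?_⟩
  have h1 : J (f - g) = z := by rw [map_sub, e]; abel
  rw [ip_eq_inner]
  change inner ℝ (J (f - g)) (J h) = 0
  rw [h1]
  exact (Submodule.mem_orthogonal' _ _).1 hz _ (Submodule.mem_map_of_mem hh)

lemma ip_sub_proj_le {f g h : SV} (hg : ip (f - g) (g - h) = 0) :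
    ip (f - g) (f - g) ≤ ip (f - h) (f - h) := by
  have e : f - h = (f - g) + (g - h) := by abel
  have h2 : ip (f - h) (f - h) = ip (f - g) (f - g) + ip (g - h) (g - h) := by
    rw [e]
    simp only [map_add (ip _), LinearMap.map_add₂, hg, ip_comm (g - h) (f - g)]
    ring
  linarith [ip_self_nonneg (g - h)]

/-- Hermite functions are dense for the `L²` norm. -/
lemma exists_HP_near_Lp (u : Lp ℝ 2 (volume : Measure E)) {ε : ℝ} (hε : 0 < ε) :
    ∃ n, ∃ h ∈ HP n, ‖u - h.toLp 2 volume‖ < ε := by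
  set J : SV →ₗ[ℝ] Lp ℝ 2 (volume : Measure E) := (toLpCLM ℝ ℝ 2 volume).toLinearMap with hJ
  have hd : (⨆ n, (HP n).map J).topologicalClosure = ⊤ := by
    rw [Submodule.topologicalClosure_eq_top_iff, eq_bot_iff]
    intro w hw
    rw [Submodule.mem_bot]
    refine Lp.eq_zero_iff_ae_eq_zero.2 (hermite_complete (Lp.memLp w) fun n g hg => ?_)
    have h1 := (Submodule.mem_orthogonal' _ _).1 hw (J g)
      (Submodule.mem_iSup_of_mem n (Submodule.mem_map_of_mem hg))
    rw [← h1, L2.inner_def]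
    apply integral_congr_ae
    filter_upwards [g.coeFn_toLp 2 volume] with v hv
    change _ = inner ℝ (w v) ((g.toLp 2 volume) v)
    rw [hv]
    simp [mul_comm]
  have hu : u ∈ closure ((⨆ n, (HP n).map J : Submodule ℝ _) : Set _) := by
    rw [← Submodule.topologicalClosure_coe, hd]; trivial
  obtain ⟨y, hy, hdist⟩ := Metric.mem_closure_iff.1 hu ε hε
  have hdir : Directed (· ≤ ·) fun n => (HP n).map J :=
    Monotone.directed_le fun a b hab => Submodule.map_mono (HP_mono hab)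
  obtain ⟨n, h, hh, rfl⟩ := (Submodule.mem_iSup_of_directed _ hdir).1 hy
  exact ⟨n, h, hh, by rwa [dist_eq_norm] at hdist⟩

lemma exists_HP_near (f : SV) {ε : ℝ} (hε : 0 < ε) :
    ∃ n, ∃ h ∈ HP n, ip (f - h) (f - h) ≤ ε := by
  obtain ⟨n, h, hh, hn⟩ := exists_HP_near_Lp (f.toLp 2 volume) (Real.sqrt_pos.2 hε)
  refine ⟨n, h, hh, ?_⟩
  have e : (f - h).toLp 2 volume = f.toLp 2 volume - h.toLp 2 volume :=
    map_sub (toLpCLM ℝ ℝ 2 volume) f h
  rw [ip_self_eq_norm_sq, e]
  calc _ ≤ (√ε) ^ 2 := by gcongr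
    _ = ε := Real.sq_sqrt hε.le

lemma RR_one_am (j : Ix) (f : SV) : RR 1 (am j f) = am j (RR 1 f) - am j f := by
  rw [RR_one, RR_one, map_sum]
  have : ∀ i, am j (am i (ap i f)) =
      am i (ap i (am j f)) + (if j = i then (1 : ℝ) else 0) • am i f := by
    intro i
    rw [am_comm j i, am_ap, map_add, map_smul]
  simp only [this, Finset.sum_add_distrib, ite_smul, one_smul, zero_smul, Finset.sum_ite_eq,
    Finset.mem_univ, if_true]
  abel

lemma RR_one_mulV (j : Ix) (f : SV) :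
    RR 1 (mulV j f) = mulV j (RR 1 f) + mulV j f - (2 : ℝ) • am j f := by
  rw [← ap_add_am j f, ← ap_add_am j (RR 1 f), map_add, RR_one_ap, RR_one_am]
  module

lemma RR_one_of_mem_zero {f : SV} (hf : f ∈ HP 0) : RR 1 f = (dd : ℝ) • f := by
  rw [RR_one]
  simp only [am_ap, am_of_mem_zero _ hf, map_zero, if_true, one_smul, zero_add]
  simp [Nat.cast_smul_eq_nsmul]

lemma RR_one_sub_mem (n : ℕ) : ∀ g ∈ HP (n + 1), RR 1 g - ((n : ℝ) + (dd + 1)) • g ∈ HP n := by
  induction n with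
  | zero =>
    refine Filt.succ_induction (fun f hf => ?_) (fun i f hf => ?_) (fun f g hf hg => ?_)
    · exact Submodule.sub_mem _ (RR_mem 1 hf) (Submodule.smul_mem _ _ hf)
    · change RR 1 (mulV i f) - _ • mulV i f ∈ _
      rw [RR_one_mulV, RR_one_of_mem_zero hf, am_of_mem_zero i hf, map_smul]
      convert Submodule.zero_mem _ using 1
      simp only [Nat.cast_zero]
      module
    · convert Submodule.add_mem _ hf hg using 1
      rw [map_add]
      module
  | succ n ih =>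
    refine Filt.succ_induction (fun f hf => ?_) (fun i f hf => ?_) (fun f g hf hg => ?_)
    · exact Submodule.sub_mem _ (RR_mem 1 hf) (Submodule.smul_mem _ _ hf)
    · change RR 1 (mulV i f) - _ • mulV i f ∈ _
      have h1 := Submodule.sub_mem _ (mulV_mem i (ih f hf))
        (Submodule.smul_mem _ (2 : ℝ) (am_mem_self i hf))
      convert h1 using 1
      rw [RR_one_mulV, map_sub, map_smul]
      push_cast
      module
    · convert Submodule.add_mem _ hf hg using 1
      rw [map_add]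
      module

lemma gap_HP_of_mem (N M : ℕ) : ∀ g ∈ HP M, (∀ h ∈ HP N, ip g h = 0) →
    ((N : ℝ) + (dd + 1)) * ip g g ≤ nA 1 g := by
  induction M with
  | zero =>
    intro g hg h
    rw [h g (HP_mono (Nat.zero_le N) hg), mul_zero]
    exact nA_nonneg _ _
  | succ M ih =>
    intro g hg h
    by_cases hMN : M + 1 ≤ N
    · rw [h g (HP_mono hMN hg), mul_zero]
      exact nA_nonneg _ _
    have hNM : N ≤ M := by omega
    obtain ⟨g₁, hg₁, ho⟩ := exists_proj (HP M) g
    set g₂ := g - g₁ with hg₂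
    have e : g = g₁ + g₂ := by rw [hg₂]; abel
    have m₂ : g₂ ∈ HP (M + 1) := Submodule.sub_mem _ hg (HP_mono (Nat.le_succ M) hg₁)
    have h1 := ih g₁ hg₁ fun k hk => by
      have a := h k hk
      have b := ho k (HP_mono hNM hk)
      rw [e, LinearMap.map_add₂] at a
      linarith
    have h2 : ip g₂ (RR 1 g₂) = ((M : ℝ) + (dd + 1)) * ip g₂ g₂ := by
      have := ho _ (RR_one_sub_mem M g₂ m₂)
      rw [map_sub, map_smul, smul_eq_mul] at this
      linarith
    have h3 : ip g₂ (RR 1 g₁) = 0 := ho _ (RR_mem 1 hg₁)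
    have h4 : ip g₁ (RR 1 g₂) = 0 := by rw [← ip_RR_symm, ip_comm, h3]
    have h5 : ip g₂ g₁ = 0 := ho _ hg₁
    have h6 : ip g₁ g₂ = 0 := by rw [ip_comm, h5]
    rw [nA_eq_ip_RR] at h1 ⊢
    rw [e]
    simp only [map_add, LinearMap.add_apply, h2, h3, h4, h5, h6]
    have h7 : (N : ℝ) ≤ M := by exact_mod_cast hNM
    nlinarith [ip_self_nonneg g₂]

/-- Spectral gap above `HP N`. -/
theorem gap_HP' (N : ℕ) (f : SV) (h : ∀ k ∈ HP N, ip f k = 0) :
    ((N : ℝ) + (dd + 1)) * ip f f ≤ nA 1 f := by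
  refine le_of_forall_pos_le_add fun ε hε => ?_
  obtain ⟨n, k, hk, hn⟩ := exists_HP_near f (ε := ε / (N + (dd + 1))) (by positivity)
  obtain ⟨g, hg, ho⟩ := exists_proj (HP (max n N)) f
  have h0 : ip (f - g) (f - g) ≤ ε / (N + (dd + 1)) :=
    (ip_sub_proj_le (ho _ (Submodule.sub_mem _ hg (HP_mono (le_max_left _ _) hk)))).trans hn
  set g₂ := f - g with hg₂
  have e : f = g + g₂ := by rw [hg₂]; abel
  have h1 := gap_HP_of_mem N _ g hg fun k hk => by
    have a := h k hk
    have b := ho k (HP_mono (le_max_right _ _) hk)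
    rw [e, LinearMap.map_add₂] at a
    linarith
  have h2 := nA_nonneg 1 g₂
  have h3 : ip g₂ (RR 1 g) = 0 := ho _ (RR_mem 1 hg)
  have h4 : ip g (RR 1 g₂) = 0 := by rw [← ip_RR_symm, ip_comm, h3]
  have h5 : ip g₂ g = 0 := ho _ hg
  have h6 : ip g g₂ = 0 := by rw [ip_comm, h5]
  rw [nA_eq_ip_RR] at h1 h2 ⊢
  rw [e]
  simp only [map_add, LinearMap.add_apply, h3, h4, h5, h6]
  have h7 : ((N : ℝ) + (dd + 1)) * ip g₂ g₂ ≤ ε := by
    rw [le_div_iff₀ (by positivity)] at h0
    linarith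
  linarith

theorem gap_HP (N : ℕ) (f : SV) (h : ∀ k ∈ HP N, ip f k = 0) :
    ((N : ℝ) + 1) * ip f f ≤ nA 1 f := by
  have := gap_HP' N f h
  nlinarith [ip_self_nonneg f, dr_pos]

end Pool.Agent.BoltzD
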